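import Pool.Agent.Helper68.QS.St1

/-!
# Project QD: straightening and transfer, FDH (image of a fundamental domain)
-/

namespace Pool.Agent.Helper82.QS

open Pool.Agent.Helper68.QS Pool.Agent.Helper68.QC
open Pool.Agent.Helper61.QE (D Dx rf SU Fu FD Ab sy nuT muT syX syY Kap En Et)
open MeasureTheory Set Filter Topology Complex
open scoped ContDiff ComplexConjugate ENNReal

private theorem mob_mem (hSUB : Pool.Agent.Helper61.QE.StSUB) {A : SL} (hA : SU A) {z : ℂ}
    (hz : z ∈ D) : mob A z ∈ D := by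
  obtain ⟨-, -, -, h4, h5, -⟩ := hSUB
  rw [Metric.mem_ball, dist_zero_right] at hz ⊢
  have hd := h4 A hA z hz.le
  have h := h5 A hA z hd
  have hn : 0 < ‖den A z‖ ^ 2 := by
    have := norm_pos_iff.2 hd
    positivity
  have h1 : 0 < 1 - ‖z‖ ^ 2 := by
    have := norm_nonneg z
    nlinarith
  have h2 : 0 < 1 - ‖mob A z‖ ^ 2 := by
    by_contra hcon
    have h3 : (1 - ‖mob A z‖ ^ 2) * ‖den A z‖ ^ 2 ≤ 0 :=
      mul_nonpos_of_nonpos_of_nonneg (not_lt.1 hcon) hn.le
    linarith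
  have h6 := norm_nonneg (mob A z)
  nlinarith

theorem pFDH (hSUB : Pool.Agent.Helper61.QE.StSUB) : StFDH := by
  intro Γ _ s φ H H' F hsu hm hm' hc hc' hl hr hint hF
  obtain ⟨r, hr1, hFr⟩ := hF.cpt
  have hFD : ∀ z ∈ F, z ∈ D := by
    intro z hz
    rw [Metric.mem_ball, dist_zero_right]
    exact lt_of_le_of_lt (hFr z hz) hr1
  refine ⟨?_, ?_, ?_, ?_⟩
  · have hD : MeasurableSet D := Metric.isOpen_ball.measurableSet
    have h1 : Measurable (D.restrict H') := (continuousOn_iff_continuous_restrict.1 hc').measurable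
    have h2 : MeasurableSet ((D.restrict H') ⁻¹' F) := h1 hF.meas
    have h3 : H '' F = Subtype.val '' ((D.restrict H') ⁻¹' F) := by
      ext y
      constructor
      · rintro ⟨x, hx, rfl⟩
        refine ⟨⟨H x, hm (hFD x hx)⟩, ?_, rfl⟩
        change H' (H x) ∈ F
        rw [hl x (hFD x hx)]
        exact hx
      · rintro ⟨⟨x, hx⟩, hx2, rfl⟩
        exact ⟨H' x, hx2, hr x hx⟩
    rw [h3]
    exact hD.subtype_image h2
  · have hsub : Metric.closedBall (0 : ℂ) r ⊆ D := Metric.closedBall_subset_ball hr1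
    have hK : IsCompact (H '' Metric.closedBall (0 : ℂ) r) :=
      (isCompact_closedBall (0 : ℂ) r).image_of_continuousOn (hc.mono hsub)
    rcases (H '' Metric.closedBall (0 : ℂ) r).eq_empty_or_nonempty with hE | hN
    · refine ⟨0, zero_lt_one, ?_⟩
      rintro z ⟨x, hx, rfl⟩
      exfalso
      have h1 : H x ∈ H '' Metric.closedBall (0 : ℂ) r :=
        ⟨x, by rw [Metric.mem_closedBall, dist_zero_right]; exact hFr x hx, rfl⟩
      rw [hE] at h1
      exact h1
    · obtain ⟨w, hw, hmax⟩ := hK.exists_isMaxOn hN continuous_norm.continuousOn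
      refine ⟨‖w‖, ?_, ?_⟩
      · obtain ⟨x, hx, rfl⟩ := hw
        have h1 : H x ∈ D := hm (hsub hx)
        rwa [Metric.mem_ball, dist_zero_right] at h1
      · rintro z ⟨x, hx, rfl⟩
        exact hmax ⟨x, by rw [Metric.mem_closedBall, dist_zero_right]; exact hFr x hx, rfl⟩
  · intro z hz
    obtain ⟨γ, hγ⟩ := hF.cov (H' z) (hm' hz)
    refine ⟨φ γ, mob (s γ) (H' z), hγ, ?_⟩
    rw [hint γ (H' z) (hm' hz), hr z hz]
  · rintro z ⟨x, hx, rfl⟩ γ ⟨y, hy, hyx⟩
    have hxD := hFD x hx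
    have h1 := hint (φ.symm γ) x hxD
    rw [MulEquiv.apply_symm_apply, ← hyx] at h1
    have h2 : mob (s (φ.symm γ)) x ∈ D := mob_mem hSUB (hsu _) hxD
    have h3 := congrArg H' h1
    rw [hl _ h2, hl y (hFD y hy)] at h3
    have h4 : φ.symm γ = 1 := hF.uni x hx _ (by rw [h3]; exact hy)
    have h5 := congrArg φ h4
    rwa [MulEquiv.apply_symm_apply, map_one] at h5

end Pool.Agent.Helper82.QS
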